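import Pool.Agent.X54.PO.Final

/-!
# The indices five to fifteen in `J(n)`

For every `n` and every `j` with `5 ≤ j ≤ 15` we have `j ∈ J(n)` exactly if `j = n`, or `j = 5` and
`n ≥ 11`.  In particular it is not true that `5 ∈ J(n)` for every `n ≥ 5`.
-/

set_option autoImplicit false

namespace Pool.Agent.Results.MP_ccc55c_co.UpToFifteen

open Pool.Agent.X54.PO

theorem result :
    ∀ n j : ℕ, 5 ≤ j → j ≤ 15 → (j ∈ J n ↔ j = n ∨ (j = 5 ∧ 11 ≤ n)) :=
  fun n j h5 h => mainAll n j h5 h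

end Pool.Agent.Results.MP_ccc55c_co.UpToFifteen
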